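import Pool.Agent.Q181.TG.Stm4

set_option autoImplicit false

/-!
# Project TG, job G0: growth for cycles when both elements are torsion elements
-/

namespace Pool.Agent.Q151.TG

open Matrix Filter Topology Pool.Agent.Q181.TG

theorem mem_tor {E : Type} [AddCommGroup E] (x : E) :
    x ∈ AddCommGroup.torsion E ↔ ∃ n : ℕ, 0 < n ∧ n • x = 0 := by
  change IsOfFinAddOrder x ↔ _
  exact isOfFinAddOrder_iff_nsmul_eq_zero

theorem Qr_eq {X : Type} [inst : DecidableEq X] (σ : X → X) {E : Type} [AddCommGroup E] (ξ η : E) :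
    Qr X σ ξ η = AddSubgroup.closure (Set.range fun x =>
      (Pi.single x ξ + Pi.single (σ x) η : X → E)) := by
  have h : inst = fun a b => Classical.propDecidable (a = b) := Subsingleton.elim _ _
  subst h
  rfl

theorem tc_one_of {E : Type} [AddCommGroup E] (h : ∀ (x : E) (n : ℕ), 0 < n → n • x = 0 → x = 0) :
    tc E = 1 := by
  unfold tc
  have h1 : AddCommGroup.torsion E = ⊥ := by
    rw [eq_bot_iff]
    intro x hx
    obtain ⟨n, hn, h2⟩ := (mem_tor x).mp hx
    rw [AddSubgroup.mem_bot]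
    exact h x n hn h2
  rw [h1]
  exact AddSubgroup.card_bot

theorem tm_zero (E : Type) [AddCommGroup E] (m : ℕ) :
    tm (0 : E ⧸ AddCommGroup.torsion E) 0 m = 1 := by
  unfold tm
  have hR : Qr (ZMod m) (fun j => j + 1) (0 : E ⧸ AddCommGroup.torsion E) 0 = ⊥ := by
    rw [eq_bot_iff]
    unfold Qr
    rw [AddSubgroup.closure_le]
    rintro _ ⟨x, rfl⟩
    simp
  refine tc_one_of ?_
  intro x n hn hx
  obtain ⟨f, rfl⟩ := QuotientAddGroup.mk_surjective x
  have h1 : ((n • f : ZMod m → E ⧸ AddCommGroup.torsion E) : Qt (ZMod m) (fun j => j + 1)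
      (0 : E ⧸ AddCommGroup.torsion E) 0) = 0 := hx
  rw [QuotientAddGroup.eq_zero_iff, hR, AddSubgroup.mem_bot] at h1
  have h2 : f = 0 := by
    funext j
    have h3 : n • f j = 0 := congrFun h1 j
    obtain ⟨e, he⟩ := QuotientAddGroup.mk_surjective (f j)
    rw [← he] at h3 ⊢
    have h4 : ((n • e : E) : E ⧸ AddCommGroup.torsion E) = 0 := h3
    rw [QuotientAddGroup.eq_zero_iff] at h4
    obtain ⟨k, hk, h5⟩ := (mem_tor _).mp h4
    change ((e : E) : E ⧸ AddCommGroup.torsion E) = 0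
    rw [QuotientAddGroup.eq_zero_iff]
    refine (mem_tor _).mpr ⟨k * n, Nat.mul_pos hk hn, ?_⟩
    rw [mul_smul]
    exact h5
  rw [h2]
  rfl

section phi

variable {E : Type} [AddCommGroup E] (N : ℕ)

/-- multiples of an element killed by `N` -/
def lf (ξ : E) (h : N • ξ = 0) : ZMod N →+ E :=
  ZMod.lift N ⟨zmultiplesHom E ξ, by simpa using h⟩

theorem lf_coe (ξ : E) (h : N • ξ = 0) (k : ℤ) : lf N ξ h (k : ZMod N) = k • ξ := by
  unfold lf
  rw [ZMod.lift_coe]
  rfl

theorem lf_one (ξ : E) (h : N • ξ = 0) : lf N ξ h 1 = ξ := by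
  have := lf_coe N ξ h 1
  simpa using this

/-- the parametrisation of the relations -/
def Phi (m : ℕ) (ξ η : E) (hξ : N • ξ = 0) (hη : N • η = 0) : (ZMod m → ZMod N) →+ (ZMod m → E) where
  toFun c j := lf N ξ hξ (c j) + lf N η hη (c (j - 1))
  map_zero' := by funext j; simp
  map_add' c d := by
    funext j
    simp only [Pi.add_apply, map_add]
    abel

theorem Phi_apply (m : ℕ) (ξ η : E) (hξ : N • ξ = 0) (hη : N • η = 0) (c : ZMod m → ZMod N)
    (j : ZMod m) : Phi N m ξ η hξ hη c j = lf N ξ hξ (c j) + lf N η hη (c (j - 1)) := rfl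

theorem Phi_single (m : ℕ) (ξ η : E) (hξ : N • ξ = 0) (hη : N • η = 0) (x : ZMod m) :
    Phi N m ξ η hξ hη (Pi.single x 1) = (Pi.single x ξ + Pi.single (x + 1) η : ZMod m → E) := by
  funext j
  rw [Phi_apply, Pi.add_apply]
  congr 1
  · by_cases h : j = x
    · subst h
      rw [Pi.single_eq_same, Pi.single_eq_same, lf_one]
    · rw [Pi.single_eq_of_ne h, Pi.single_eq_of_ne h, map_zero]
  · by_cases h : j = x + 1
    · subst h
      rw [add_sub_cancel_right, Pi.single_eq_same, Pi.single_eq_same, lf_one]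
    · have h' : j - 1 ≠ x := fun h'' => h (by rw [← h'', sub_add_cancel])
      rw [Pi.single_eq_of_ne h, Pi.single_eq_of_ne h', map_zero]

theorem Phi_range (m : ℕ) [NeZero m] [NeZero N] (ξ η : E) (hξ : N • ξ = 0) (hη : N • η = 0) :
    (Phi N m ξ η hξ hη).range = Qr (ZMod m) (fun j => j + 1) ξ η := by
  rw [Qr_eq]
  apply le_antisymm
  · rintro _ ⟨c, rfl⟩
    have h1 : c = ∑ x, (c x).val • (Pi.single x 1 : ZMod m → ZMod N) := by
      funext j
      rw [Finset.sum_apply, Finset.sum_eq_single j]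
      · simp
      · intro b _ hb
        rw [Pi.smul_apply, Pi.single_eq_of_ne (Ne.symm hb), smul_zero]
      · intro h; exact absurd (Finset.mem_univ _) h
    rw [h1, map_sum]
    refine AddSubgroup.sum_mem _ fun x _ => ?_
    rw [map_nsmul]
    refine AddSubgroup.nsmul_mem _ ?_ _
    rw [Phi_single]
    exact AddSubgroup.subset_closure ⟨x, rfl⟩
  · rw [AddSubgroup.closure_le]
    rintro _ ⟨x, rfl⟩
    exact ⟨Pi.single x 1, Phi_single N m ξ η hξ hη x⟩

end phi

theorem t_g0 : S_tc → S_split → S_walk → S_g0 := by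
  classical
  intro htc hsplit hwalk E _ _ ξ η hξ hη
  obtain ⟨N, hN⟩ : ∃ N, N = tc E := ⟨_, rfl⟩
  have hN1 : 1 ≤ N := by rw [hN]; exact htc.2.1 E
  have : NeZero N := ⟨by omega⟩
  have hkill : ∀ x ∈ AddCommGroup.torsion E, N • x = 0 := by
    intro x hx
    have h1 : Nat.card (AddCommGroup.torsion E) • (⟨x, hx⟩ : AddCommGroup.torsion E) = 0 :=
      card_nsmul_eq_zero'
    have h2 := congrArg (Subtype.val) h1
    rw [hN]
    exact h2
  have hξN := hkill ξ hξ
  have hηN := hkill η hη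
  let L : (ZMod N × ZMod N) →+ E :=
    (lf N ξ hξN).comp (AddMonoidHom.snd (ZMod N) (ZMod N))
      + (lf N η hηN).comp (AddMonoidHom.fst (ZMod N) (ZMod N))
  obtain ⟨K, hK1, hK⟩ := hwalk (ZMod N) L.ker
  refine ⟨K, hK1, hK.congr' ?_⟩
  filter_upwards [eventually_ge_atTop 1] with m hm
  congr 2
  have : NeZero m := ⟨by omega⟩
  -- the closed walks are the kernel
  have h1 : Nat.card {c : ZMod m → ZMod N // ∀ j, (c j, c (j + 1)) ∈ L.ker}
      = Nat.card (Phi N m ξ η hξN hηN).ker := by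
    refine Nat.card_congr (Equiv.subtypeEquivRight fun c => ?_)
    rw [AddMonoidHom.mem_ker]
    constructor
    · intro h
      funext j
      rw [Phi_apply]
      have h2 := h (j - 1)
      rw [AddMonoidHom.mem_ker, sub_add_cancel] at h2
      exact h2
    · intro h j
      have h2 := congrFun h (j + 1)
      rw [Phi_apply, add_sub_cancel_right] at h2
      rw [AddMonoidHom.mem_ker]
      exact h2
  rw [h1]
  -- orders
  have h2 : Nat.card (ZMod m → ZMod N) = Nat.card (Phi N m ξ η hξN hηN).range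
      * Nat.card (Phi N m ξ η hξN hηN).ker := by
    rw [AddSubgroup.card_eq_card_quotient_mul_card_addSubgroup (Phi N m ξ η hξN hηN).ker]
    congr 1
    exact Nat.card_congr (QuotientAddGroup.quotientKerEquivRange (Phi N m ξ η hξN hηN)).toEquiv
  have h3 : Nat.card (ZMod m → ZMod N) = N ^ m := by
    rw [Nat.card_fun, Nat.card_zmod, Nat.card_zmod]
  have h4 := hsplit E ξ η m hm
  have h5 : Qr (ZMod m) (fun j => j + 1) ξ η ⊓ AddCommGroup.torsion (ZMod m → E)
      = (Phi N m ξ η hξN hηN).range := by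
    rw [Phi_range]
    refine inf_eq_left.mpr ?_
    rw [Qr_eq, AddSubgroup.closure_le]
    rintro _ ⟨x, rfl⟩
    refine (mem_tor _).mpr ⟨N, by omega, ?_⟩
    rw [smul_add, ← Pi.single_smul, ← Pi.single_smul, hξN, hηN, Pi.single_zero, Pi.single_zero,
      add_zero]
  have h6 : (QuotientAddGroup.mk ξ : E ⧸ AddCommGroup.torsion E) = 0 :=
    (QuotientAddGroup.eq_zero_iff ξ).mpr hξ
  have h7 : (QuotientAddGroup.mk η : E ⧸ AddCommGroup.torsion E) = 0 :=
    (QuotientAddGroup.eq_zero_iff η).mpr hη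
  rw [h5, h6, h7, tm_zero, mul_one, ← hN, ← h3, h2, mul_comm] at h4
  have h8 : 0 < Nat.card (Phi N m ξ η hξN hηN).range := by
    rcases Nat.eq_zero_or_pos (Nat.card (Phi N m ξ η hξN hηN).range) with h | h
    · rw [h, zero_mul, h3] at h2
      have : 0 < N ^ m := Nat.pow_pos (by omega)
      omega
    · exact h
  exact_mod_cast (Nat.eq_of_mul_eq_mul_left h8 h4).symm

end Pool.Agent.Q151.TG
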