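import Pool.Agent.Q151.TG.Req

set_option autoImplicit false

/-!
# Project TG, job HEIS: the torsion along chains of subgroups of the Heisenberg group
-/

namespace Pool.Agent.Q151.TG

open Matrix Filter Topology Pool.Agent.Q181.TG
open Pool.Agent.Helper993.HeisDet
open Pool.Agent.Y226.FK (Sq ch)

theorem norm_ge (s : Sq) (i : ℕ) {N : ℕ} (hN : 2 ≤ N) :
    1 ≤ ‖D (s.k i) (s.k i) (s.k i) (N : ℂ)‖ := by
  have : NeZero (s.k i) := ⟨(s.pos i).ne'⟩
  exact D_norm_ge_one (s.odd i) hN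

section one

variable (K : Subgroup (Heis ℤ)) [K.Normal] [Fintype (Heis ℤ ⧸ K)] [DecidableEq (Heis ℤ ⧸ K)]

theorem smul_iff (g : Heis ℤ) (x y : Heis ℤ ⧸ K) : g • y = x ↔ x * y⁻¹ = QuotientGroup.mk g := by
  obtain ⟨y', rfl⟩ := QuotientGroup.mk_surjective y
  rw [mul_inv_eq_iff_eq_mul, eq_comm]
  exact Iff.rfl

theorem reg_hm (N : ℕ) (x y : Heis ℤ ⧸ K) (i j : Fin 1) :
    (((reg (Heis ℤ ⧸ K) (hm N) (x, i) (y, j) : ℤ)) : ℂ)
      = gmat (MonoidAlgebra.mapDomain (QuotientGroup.mk' K) (elt ℂ (N : ℂ))) x⁻¹ y⁻¹ := by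
  have h1 : ∀ (g : Heis ℤ) (c : ℤ), pr (Heis ℤ ⧸ K) (MonoidAlgebra.single g c) x y
      = if x * y⁻¹ = QuotientGroup.mk g then c else 0 := by
    intro g c
    rw [pr, MonoidAlgebra.lift_single, Matrix.smul_apply]
    change c • (if g • y = x then (1 : ℤ) else 0) = _
    by_cases h : g • y = x
    · rw [if_pos h, if_pos ((smul_iff K g x y).mp h), smul_eq_mul, mul_one]
    · rw [if_neg h, if_neg (fun h' => h ((smul_iff K g x y).mpr h')), smul_zero]
  rw [reg_eq]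
  change ((pr (Heis ℤ ⧸ K) (elt ℤ (N : ℤ)) x y : ℤ) : ℂ)
    = (MonoidAlgebra.mapDomain (QuotientGroup.mk' K) (elt ℂ (N : ℂ))).coeff ((x⁻¹)⁻¹ * y⁻¹)
  rw [elt, map_sub, map_add, Matrix.sub_apply, Matrix.add_apply, h1, h1, h1, elt_coeff, inv_inv,
    QuotientGroup.mk_one]
  push_cast
  have hc : ∀ (P : Prop) (d1 d2 : Decidable P) (z : ℂ), @ite ℂ P d1 z 0 = @ite ℂ P d2 z 0 := by
    intro P d1 d2 z
    by_cases h : P
    · rw [if_pos h, if_pos h]
    · rw [if_neg h, if_neg h]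
  exact congrArg₂ (fun u v : ℂ => u - v) (congrArg₂ (fun u v : ℂ => u + v) (hc _ _ _ _) (hc _ _ _ _))
    (hc _ _ _ _)

theorem det_reg (N : ℕ) (D : ℂ)
    (hD : (gmat (MonoidAlgebra.mapDomain (QuotientGroup.mk' K) (elt ℂ (N : ℂ)))).det = D) :
    (((reg (Heis ℤ ⧸ K) (hm N)).det : ℤ) : ℂ) = D := by
  let e : (Heis ℤ ⧸ K) × Fin 1 ≃ (Heis ℤ ⧸ K) :=
    (Equiv.prodUnique (Heis ℤ ⧸ K) (Fin 1)).trans (Equiv.inv (Heis ℤ ⧸ K))
  have h1 : (reg (Heis ℤ ⧸ K) (hm N)).map (Int.castRingHom ℂ)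
      = (gmat (MonoidAlgebra.mapDomain (QuotientGroup.mk' K) (elt ℂ (N : ℂ)))).submatrix e e := by
    ext ⟨x, i⟩ ⟨y, j⟩
    exact reg_hm K N x y i j
  have h2 : (Int.castRingHom ℂ) (reg (Heis ℤ ⧸ K) (hm N)).det
      = ((reg (Heis ℤ ⧸ K) (hm N)).map (Int.castRingHom ℂ)).det :=
    RingHom.map_det (Int.castRingHom ℂ) (reg (Heis ℤ ⧸ K) (hm N))
  rw [h1, Matrix.det_submatrix_equiv_self, hD] at h2
  exact h2

end one

theorem tc_hm (hdet : S_det) (K : Subgroup (Heis ℤ)) [K.Normal] (hfin : Finite (Heis ℤ ⧸ K)) (N : ℕ)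
    (D : ℂ) (hD : ∀ [Fintype (Heis ℤ ⧸ K)] [DecidableEq (Heis ℤ ⧸ K)],
      (gmat (MonoidAlgebra.mapDomain (QuotientGroup.mk' K) (elt ℂ (N : ℂ)))).det = D)
    (h1 : 1 ≤ ‖D‖) :
    Finite (Cok (reg (Heis ℤ ⧸ K) (hm N))) ∧
      Real.log (tc (Cok (reg (Heis ℤ ⧸ K) (hm N)))) = Real.log ‖D‖ := by
  classical
  have : Fintype (Heis ℤ ⧸ K) := Fintype.ofFinite _
  have h2 := det_reg K N D hD
  have h3 : (reg (Heis ℤ ⧸ K) (hm N)).det ≠ 0 := by
    intro h
    rw [h, Int.cast_zero] at h2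
    rw [← h2, norm_zero] at h1
    exact absurd h1 (by norm_num)
  obtain ⟨h4, h5, h6⟩ := hdet _ _ h3
  refine ⟨h4, ?_⟩
  rw [h6, ← h2, Complex.norm_intCast, Nat.cast_natAbs, Int.cast_abs]

theorem t_heis : S_det → S_tc → S_heis := by
  intro hdet _
  refine ⟨?_, ?_⟩
  · intro N hN x hx0 hx
    have hlog : 0 < Real.log N := Real.log_pos (by exact_mod_cast (by omega : 1 < N))
    obtain ⟨P, hP⟩ : ∃ P : ℝ, P = 1 - x / Real.log N := ⟨_, rfl⟩
    have hP0 : 0 ≤ P := by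
      rw [hP, sub_nonneg, div_le_one hlog]
      exact hx
    have hP1 : P < 1 := by
      have : 0 < x / Real.log N := by positivity
      rw [hP]; linarith
    obtain ⟨k, h0, hpos, hodd, hdvd, h3, hcard, hmono, hlim⟩ :=
      Pool.Agent.Y226.FK.exists_seq P hP0 hP1
    let s : Sq := ⟨k, h0, hpos, hodd, hdvd, hmono⟩
    have key : ∀ i, Finite (Cok (reg (Heis ℤ ⧸ ch s i) (hm N))) ∧
        Real.log (tc (Cok (reg (Heis ℤ ⧸ ch s i) (hm N))))
          = Real.log ‖D (s.k i) (s.k i) (s.k i) (N : ℂ)‖ := by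
      intro i
      refine tc_hm hdet (ch s i) (Pool.Agent.Y226.FK.ch_finite s i) N _ ?_ ?_
      · intro _ _
        exact Pool.Agent.Y226.FK.det_ch s N i
      · exact norm_ge s i hN
    refine ⟨ch s, fun i => inferInstance, fun i => Subgroup.finiteIndex_of_finite_quotient,
      Pool.Agent.Y226.FK.ch_zero s, Pool.Agent.Y226.FK.ch_anti s, Pool.Agent.Y226.FK.ch_inf s,
      fun i => (key i).1, ?_⟩
    have h4 := Pool.Agent.Y226.FK.tendsto_log_D hodd h3 hcard hlim hN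
    have h5 : (1 - P) * Real.log N = x := by
      rw [hP]
      field_simp
      ring
    rw [h5] at h4
    refine h4.congr fun i => ?_
    unfold nlog
    rw [(key i).2, Pool.Agent.Y226.FK.ch_card]
    have e : (((s.k i * (s.k i * s.k i) : ℕ)) : ℝ) = ((k i : ℕ) : ℝ) ^ 3 := by
      change (((k i * (k i * k i) : ℕ)) : ℝ) = _
      push_cast
      ring
    rw [e]
  · have key : ∀ i, Finite (Cok (reg (Heis ℤ ⧸ chain i) (hm 10))) ∧
        Real.log (tc (Cok (reg (Heis ℤ ⧸ chain i) (hm 10)))) = Real.log ‖Dseq i‖ := by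
      intro i
      refine tc_hm hdet (chain i) (chain_finite i) 10 _ ?_ ?_
      · intro _ _
        exact det_chain i
      · exact Dseq_norm_ge i
    refine ⟨chain, fun i => inferInstance, fun i => Subgroup.finiteIndex_of_finite_quotient,
      chain_zero, chain_anti, chain_inf, fun i => (key i).1, ?_⟩
    rintro ⟨x, hx⟩
    refine no_limit x (hx.congr fun i => ?_)
    unfold nlog
    rw [(key i).2]

end Pool.Agent.Q151.TG
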