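import Pool.Agent.Q181.TG.Stm5

set_option autoImplicit false

/-!
# Project TG, job REQ: cokernels of equivalent matrices over a group ring are isomorphic
-/

namespace Pool.Agent.Q151.TG

open Matrix Pool.Agent.Q181.TG
open Pool.Agent.Q181.LR (Eqv)

section perm

variable {G : Type} [Group G] (X : Type) [Fintype X] [DecidableEq X] [MulAction G X]

/-- the permutation representation by matrices -/
def pm : G →* Matrix X X ℤ where
  toFun g := Matrix.of fun x y => if g • y = x then 1 else 0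
  map_one' := by
    ext x y
    simp only [one_smul, of_apply, Matrix.one_apply]
    by_cases h : x = y
    · simp [h]
    · rw [if_neg (fun h' => h h'.symm), if_neg h]
  map_mul' g h := by
    ext x y
    simp only [of_apply, Matrix.mul_apply]
    rw [Finset.sum_eq_single (h • y)]
    · simp [mul_smul]
    · intro z _ hz
      rw [if_neg (fun h' : h • y = z => hz h'.symm), mul_zero]
    · intro h'
      exact absurd (Finset.mem_univ _) h'

/-- the ring homomorphism given by the permutation module -/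
noncomputable def pr : MonoidAlgebra ℤ G →ₐ[ℤ] Matrix X X ℤ := MonoidAlgebra.lift ℤ (Matrix X X ℤ) G (pm X)

open Classical in
theorem pr_apply (a : MonoidAlgebra ℤ G) (x y : X) :
    pr X a x y = a.coeff.sum fun h c => if h • y = x then c else 0 := by
  unfold pr
  rw [MonoidAlgebra.lift_apply, Finsupp.sum, Finsupp.sum, Matrix.sum_apply]
  refine Finset.sum_congr rfl fun h _ => ?_
  rw [Matrix.smul_apply]
  change _ • (if h • y = x then (1 : ℤ) else 0) = _
  by_cases h' : h • y = x
  · simp [h']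
  · simp [h']

theorem reg_eq {ι κ : Type} (A : Matrix ι κ (MonoidAlgebra ℤ G)) (p : X × ι) (q : X × κ) :
    reg X A p q = pr X (A p.2 q.2) p.1 q.1 := by
  rw [pr_apply]
  unfold reg
  refine Finset.sum_congr rfl fun h _ => ?_
  by_cases h' : h • q.1 = p.1
  · simp only [if_pos h']
  · simp only [if_neg h']

theorem reg_mul {ι κ μ : Type} [Fintype κ] (A : Matrix ι κ (MonoidAlgebra ℤ G))
    (B : Matrix κ μ (MonoidAlgebra ℤ G)) : reg X (A * B) = reg X A * reg X B := by
  ext p q
  rw [reg_eq, Matrix.mul_apply, Matrix.mul_apply, map_sum, Matrix.sum_apply, Fintype.sum_prod_type,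
    Finset.sum_comm]
  refine Finset.sum_congr rfl fun k _ => ?_
  rw [map_mul, Matrix.mul_apply]
  refine Finset.sum_congr rfl fun z _ => ?_
  rw [reg_eq, reg_eq]

theorem reg_one {ι : Type} [DecidableEq ι] :
    reg X (1 : Matrix ι ι (MonoidAlgebra ℤ G)) = 1 := by
  ext p q
  obtain ⟨x, i⟩ := p
  obtain ⟨y, j⟩ := q
  rw [reg_eq]
  by_cases h : i = j
  · subst h
    simp only [Matrix.one_apply_eq, map_one]
    by_cases h2 : x = y
    · subst h2; simp
    · rw [Matrix.one_apply_ne h2, Matrix.one_apply_ne]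
      intro h'
      exact h2 (Prod.ext_iff.mp h').1
  · simp only [Matrix.one_apply_ne h, map_zero, Matrix.zero_apply]
    rw [Matrix.one_apply_ne]
    intro h'
    exact h (Prod.ext_iff.mp h').2

end perm

section cok

/-- the basic isomorphism -/
theorem cok_equiv {α β α' β' : Type} [Fintype α] (M : Matrix α β ℤ) (M' : Matrix α' β' ℤ)
    (F : (β → ℤ) →ₗ[ℤ] (β' → ℤ)) (hF : Function.Surjective F)
    (h : ∀ v, F v ∈ Submodule.span ℤ (Set.range M') ↔ v ∈ Submodule.span ℤ (Set.range M)) :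
    Nonempty (Cok M ≃+ Cok M') := by
  have h1 : LinearMap.ker ((Submodule.mkQ (Submodule.span ℤ (Set.range M'))).comp F)
      = Submodule.span ℤ (Set.range M) := by
    ext v
    rw [LinearMap.mem_ker, LinearMap.comp_apply, Submodule.mkQ_apply,
      Submodule.Quotient.mk_eq_zero, h]
  have h2 : Function.Surjective ((Submodule.mkQ (Submodule.span ℤ (Set.range M'))).comp F) := by
    rw [LinearMap.coe_comp]
    exact (Submodule.mkQ_surjective _).comp hF
  exact ⟨((Submodule.quotEquivOfEq _ _ h1.symm).trans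
    (LinearMap.quotKerEquivOfSurjective _ h2)).toAddEquiv⟩

theorem mem_span_iff {α β : Type} [Fintype α] (M : Matrix α β ℤ) (v : β → ℤ) :
    v ∈ Submodule.span ℤ (Set.range M) ↔ ∃ w : α → ℤ, w ᵥ* M = v := by
  rw [← cok_range, LinearMap.mem_range]
  rfl

theorem cok_unit {α β : Type} [Fintype α] [Fintype β] [DecidableEq α] [DecidableEq β]
    (M : Matrix α β ℤ) (V V' : Matrix α α ℤ) (U U' : Matrix β β ℤ) (hV' : V' * V = 1)
    (hU : U * U' = 1) (hU' : U' * U = 1) : Nonempty (Cok (V * M * U) ≃+ Cok M) := by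
  have hV : V * V' = 1 := mul_eq_one_comm.mp hV'
  refine cok_equiv _ _ U'.vecMulLinear ?_ ?_
  · intro v
    refine ⟨v ᵥ* U, ?_⟩
    change (v ᵥ* U) ᵥ* U' = v
    rw [Matrix.vecMul_vecMul, hU, Matrix.vecMul_one]
  · intro v
    rw [mem_span_iff, mem_span_iff]
    change (∃ w, w ᵥ* M = v ᵥ* U') ↔ _
    constructor
    · rintro ⟨w, hw⟩
      refine ⟨w ᵥ* V', ?_⟩
      rw [Matrix.vecMul_vecMul, ← Matrix.mul_assoc, ← Matrix.mul_assoc, hV', Matrix.one_mul,
        ← Matrix.vecMul_vecMul, hw, Matrix.vecMul_vecMul, hU', Matrix.vecMul_one]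
    · rintro ⟨w, rfl⟩
      refine ⟨w ᵥ* V, ?_⟩
      rw [Matrix.vecMul_vecMul, Matrix.vecMul_vecMul, Matrix.mul_assoc, hU, Matrix.mul_one]

end cok

theorem t_req : S_req := by
  classical
  intro G _ ι κ Y _ _ _ _ _ _ A B hAB X _ _
  have : Fintype X := Fintype.ofFinite X
  obtain ⟨P, P', rfl⟩ := hAB
  rw [reg_mul, reg_mul]
  have h1 := cok_unit (reg X (fromBlocks A 0 0 1 : Matrix (ι ⊕ Y) (κ ⊕ Y) (MonoidAlgebra ℤ G)))
    (reg X P.val) (reg X P⁻¹.val) (reg X P'.val) (reg X P'⁻¹.val)
    (by rw [← reg_mul, ← Units.val_mul, inv_mul_cancel, Units.val_one, reg_one])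
    (by rw [← reg_mul, ← Units.val_mul, mul_inv_cancel, Units.val_one, reg_one])
    (by rw [← reg_mul, ← Units.val_mul, inv_mul_cancel, Units.val_one, reg_one])
  obtain ⟨e1⟩ := h1
  have h2 : Nonempty (Cok (reg X (fromBlocks A 0 0 1 : Matrix (ι ⊕ Y) (κ ⊕ Y) (MonoidAlgebra ℤ G)))
      ≃+ Cok (reg X A)) := by
    refine cok_equiv _ _ (LinearMap.funLeft ℤ ℤ (fun p : X × κ => (p.1, (Sum.inl p.2 : κ ⊕ Y)))) ?_ ?_
    · refine LinearMap.funLeft_surjective_of_injective _ _ _ ?_
      rintro ⟨x, i⟩ ⟨y, j⟩ h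
      simp only [Prod.mk.injEq, Sum.inl.injEq] at h
      exact Prod.ext h.1 h.2
    · intro v
      rw [mem_span_iff, mem_span_iff]
      have hll : ∀ (x y : X) (i : ι) (j : κ), reg X (fromBlocks A 0 0 1 :
          Matrix (ι ⊕ Y) (κ ⊕ Y) (MonoidAlgebra ℤ G)) (x, Sum.inl i) (y, Sum.inl j)
          = reg X A (x, i) (y, j) := fun x y i j => rfl
      have hlr : ∀ (x y : X) (i : ι) (j : Y), reg X (fromBlocks A 0 0 1 :
          Matrix (ι ⊕ Y) (κ ⊕ Y) (MonoidAlgebra ℤ G)) (x, Sum.inl i) (y, Sum.inr j) = 0 := by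
        intro x y i j
        rw [reg_eq]
        simp
      have hrl : ∀ (x y : X) (i : Y) (j : κ), reg X (fromBlocks A 0 0 1 :
          Matrix (ι ⊕ Y) (κ ⊕ Y) (MonoidAlgebra ℤ G)) (x, Sum.inr i) (y, Sum.inl j) = 0 := by
        intro x y i j
        rw [reg_eq]
        simp
      have hrr : ∀ (x y : X) (i j : Y), reg X (fromBlocks A 0 0 1 :
          Matrix (ι ⊕ Y) (κ ⊕ Y) (MonoidAlgebra ℤ G)) (x, Sum.inr i) (y, Sum.inr j)
          = if (x, i) = (y, j) then 1 else 0 := by
        intro x y i j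
        have h := congrFun (congrFun (reg_one X (G := G) (ι := Y)) (x, i)) (y, j)
        rw [Matrix.one_apply] at h
        rw [← h]
        rfl
      have key : ∀ w : X × (ι ⊕ Y) → ℤ, ∀ (y : X) (j : κ), (w ᵥ* reg X (fromBlocks A 0 0 1 :
          Matrix (ι ⊕ Y) (κ ⊕ Y) (MonoidAlgebra ℤ G))) (y, Sum.inl j)
          = ((fun p : X × ι => w (p.1, Sum.inl p.2)) ᵥ* reg X A) (y, j) := by
        intro w y j
        simp only [Matrix.vecMul, dotProduct, Fintype.sum_prod_type, Fintype.sum_sum_type, hll, hrl,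
          mul_zero, Finset.sum_const_zero, add_zero]
      have key2 : ∀ w : X × (ι ⊕ Y) → ℤ, ∀ (y : X) (j : Y), (w ᵥ* reg X (fromBlocks A 0 0 1 :
          Matrix (ι ⊕ Y) (κ ⊕ Y) (MonoidAlgebra ℤ G))) (y, Sum.inr j) = w (y, Sum.inr j) := by
        intro w y j
        simp only [Matrix.vecMul, dotProduct, Fintype.sum_prod_type, Fintype.sum_sum_type, hlr, hrr,
          mul_zero, Finset.sum_const_zero, zero_add]
        rw [Finset.sum_eq_single y, Finset.sum_eq_single j]
        · simp
        · intro b _ hb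
          rw [if_neg, mul_zero]
          intro h
          exact hb (Prod.ext_iff.mp h).2
        · intro h; exact absurd (Finset.mem_univ _) h
        · intro b _ hb
          refine Finset.sum_eq_zero fun k _ => ?_
          rw [if_neg, mul_zero]
          intro h
          exact hb (Prod.ext_iff.mp h).1
        · intro h; exact absurd (Finset.mem_univ _) h
      constructor
      · rintro ⟨w, hw⟩
        refine ⟨fun p => Sum.elim (fun i => w (p.1, i)) (fun a => v (p.1, Sum.inr a)) p.2, ?_⟩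
        ext ⟨y, j⟩
        rcases j with j | j
        · rw [key]
          exact congrFun hw (y, j)
        · rw [key2]
          rfl
      · rintro ⟨w, rfl⟩
        refine ⟨fun p : X × ι => w (p.1, Sum.inl p.2), ?_⟩
        ext ⟨y, j⟩
        exact (key w y j).symm
  obtain ⟨e2⟩ := h2
  exact ⟨e1.trans e2⟩

end Pool.Agent.Q151.TG
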